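import Mathlib
import Pool.Agent.Lib.MP_baf44c_co.FB.Final

/-! Stanley's domino-tiling denominators: the integers `k` for which `Q_k` has a repeated root are
given by finitely many divisibility conditions on `k + 1`, with an explicit bound. -/

set_option autoImplicit false

namespace Pool.Agent.Lib.MP_baf44c_co.Old.FiniteBasis

open Polynomial

/-- `c_j = cos (jπ/(k+1)) + √(1 + cos² (jπ/(k+1)))`. -/
noncomputable def cj (k j : ℕ) : ℝ :=
  Real.cos (j * Real.pi / (k + 1)) + Real.sqrt (1 + Real.cos (j * Real.pi / (k + 1)) ^ 2)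

/-- `c̄_j = cos (jπ/(k+1)) - √(1 + cos² (jπ/(k+1)))`. -/
noncomputable def cbar (k j : ℕ) : ℝ :=
  Real.cos (j * Real.pi / (k + 1)) - Real.sqrt (1 + Real.cos (j * Real.pi / (k + 1)) ^ 2)

/-- `a_S = ∏_{j ∈ S} c_j ∏_{j ∉ S} c̄_j`, for `S ⊆ {1, .., ⌊k/2⌋}`. -/
noncomputable def aS (k : ℕ) (S : Finset ℕ) : ℝ :=
  (∏ j ∈ S, cj k j) * ∏ j ∈ Finset.Icc 1 (k / 2) \ S, cbar k j

/-- Stanley's denominator: `∏_S (1 - a_S x)` for even `k`, `∏_S (1 - a_S² x²)` for odd `k`. -/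
noncomputable def Q (k : ℕ) : ℝ[X] :=
  if Even k then ∏ S ∈ (Finset.Icc 1 (k / 2)).powerset, (1 - C (aS k S) * X)
  else ∏ S ∈ (Finset.Icc 1 (k / 2)).powerset, (1 - C (aS k S ^ 2) * X ^ 2)

/-- Some complex root has multiplicity at least two. -/
def HasRepeatedRoot (P : ℝ[X]) : Prop :=
  ∃ z : ℂ, 2 ≤ (P.map (algebraMap ℝ ℂ)).rootMultiplicity z

theorem mono {k k' : ℕ} (h : k' + 1 ∣ k + 1) (h' : HasRepeatedRoot (Q k')) :
    HasRepeatedRoot (Q k) :=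
  Pool.Agent.Lib.MP_baf44c_co.FB.mono h h'

theorem main_imp {k : ℕ} (hk : 1 ≤ k) (h : HasRepeatedRoot (Q k)) :
    HasRepeatedRoot (Q (Nat.gcd (k + 1) ((Nat.factorial (2 ^ 20)) ^ 2) - 1)) :=
  Pool.Agent.Lib.MP_baf44c_co.FB.main_imp hk h

/-- The finite basis theorem: there is a finite set `B` of divisors of `((2^20)!)²` such that for
every `k ≥ 1` the polynomial `Q_k` has a repeated root if and only if some `b ∈ B` divides
`k + 1`. -/
theorem result : ∃ B : Finset ℕ, (∀ b ∈ B, b ∣ (Nat.factorial (2 ^ 20)) ^ 2) ∧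
    ∀ k : ℕ, 1 ≤ k → (HasRepeatedRoot (Q k) ↔ ∃ b ∈ B, b ∣ k + 1) := by
  classical
  have hM0 : (Nat.factorial (2 ^ 20)) ^ 2 ≠ 0 := pow_ne_zero _ (Nat.factorial_ne_zero _)
  have hmain : ∀ {k : ℕ}, 1 ≤ k → HasRepeatedRoot (Q k) →
      HasRepeatedRoot (Q (Nat.gcd (k + 1) ((Nat.factorial (2 ^ 20)) ^ 2) - 1)) :=
    fun hk h => main_imp hk h
  generalize (Nat.factorial (2 ^ 20)) ^ 2 = M at hM0 hmain ⊢
  refine ⟨M.divisors.filter fun b => HasRepeatedRoot (Q (b - 1)), ?_, ?_⟩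
  · intro b hb
    exact Nat.dvd_of_mem_divisors (Finset.mem_filter.1 hb).1
  · intro k hk
    constructor
    · intro h
      refine ⟨Nat.gcd (k + 1) M, ?_, Nat.gcd_dvd_left _ _⟩
      rw [Finset.mem_filter, Nat.mem_divisors]
      exact ⟨⟨Nat.gcd_dvd_right _ _, hM0⟩, hmain hk h⟩
    · rintro ⟨b, hb, hbk⟩
      obtain ⟨hb1, hb2⟩ := Finset.mem_filter.1 hb
      have hb0 : b ≠ 0 := by
        rintro rfl
        exact hM0 (Nat.eq_zero_of_zero_dvd (Nat.dvd_of_mem_divisors hb1))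
      refine mono ?_ hb2
      rwa [Nat.sub_add_cancel (Nat.one_le_iff_ne_zero.2 hb0)]

end Pool.Agent.Lib.MP_baf44c_co.Old.FiniteBasis
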